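import Pool.Agent.W201.NT.StmG

/-!
# Project NT, part ID: an isometry whose first order part at a fixed point is the identity
-/

set_option autoImplicit false

open Metric Set
open scoped Manifold ContDiff Topology

namespace Pool.Agent.W131.NTID

open Pool.Agent.Helper381 Pool.Agent.W201.NT

theorem near {M E : Type} [MetricSpace M] [NormedAddCommGroup E] [NormedSpace ℝ E] (c : Loc M E)
    {y : M} (hy : dist (c.ψ c.x₀) y < c.τ) :
    c.ψ (c.φ y) = y ∧ ‖c.φ y - c.x₀‖ ≤ c.L * dist (c.ψ c.x₀) y := by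
  obtain ⟨w, hw, hwy, hle⟩ := c.in_chart (mem_ball_self c.r₁pos) hy
  have h : c.φ y = w := by
    rw [← hwy]
    exact c.φψ w hw
  rw [h]
  exact ⟨hwy, hle⟩

theorem seq_bound (e : ℕ → ℝ) (s : ℝ) (hs0 : 0 ≤ s) (hs : s ≤ 1 / 16) (he : ∀ j, 0 ≤ e j)
    (h : ∀ j, (1 / 2 - s * (3 / 4) ^ j) * e j ≤ e (j + 1)) (j : ℕ) :
    (1 - 8 * s + 8 * s * (3 / 4) ^ j) * e 0 ≤ 2 ^ j * e j := by
  induction j with
  | zero => simp
  | succ j ih =>
    have hx0 : 0 ≤ (3 / 4 : ℝ) ^ j := by positivity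
    have hx1 : (3 / 4 : ℝ) ^ j ≤ 1 := pow_le_one₀ (by norm_num) (by norm_num)
    have h1 := h j
    have hsx : 0 ≤ s * (3 / 4 : ℝ) ^ j := mul_nonneg hs0 hx0
    have hsx1 : s * (3 / 4 : ℝ) ^ j ≤ s := mul_le_of_le_one_right hs0 hx1
    calc (1 - 8 * s + 8 * s * (3 / 4) ^ (j + 1)) * e 0
        ≤ ((1 - 2 * s * (3 / 4) ^ j) * (1 - 8 * s + 8 * s * (3 / 4) ^ j)) * e 0 := by
          apply mul_le_mul_of_nonneg_right _ (he 0)
          have h2 : (1 - 2 * s * (3 / 4) ^ j) * (1 - 8 * s + 8 * s * (3 / 4) ^ j) -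
              (1 - 8 * s + 8 * s * (3 / 4) ^ (j + 1)) =
              16 * (s * (3 / 4 : ℝ) ^ j) * (s - s * (3 / 4 : ℝ) ^ j) := by
            rw [pow_succ]
            ring
          have h3 : 0 ≤ 16 * (s * (3 / 4 : ℝ) ^ j) * (s - s * (3 / 4 : ℝ) ^ j) :=
            mul_nonneg (by positivity) (by linarith)
          linarith
      _ = (1 - 2 * s * (3 / 4) ^ j) * ((1 - 8 * s + 8 * s * (3 / 4) ^ j) * e 0) := by ring
      _ ≤ (1 - 2 * s * (3 / 4) ^ j) * (2 ^ j * e j) :=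
          mul_le_mul_of_nonneg_left ih (by linarith)
      _ = 2 ^ (j + 1) * ((1 / 2 - s * (3 / 4) ^ j) * e j) := by
          rw [pow_succ]
          ring
      _ ≤ 2 ^ (j + 1) * e (j + 1) := mul_le_mul_of_nonneg_left h1 (by positivity)

theorem sqrt_geo {t : ℝ} (ht : 0 ≤ t) (j : ℕ) : √(t * (1 / 2) ^ j) ≤ √t * (3 / 4) ^ j := by
  rw [Real.sqrt_mul ht]
  apply mul_le_mul_of_nonneg_left _ (Real.sqrt_nonneg _)
  apply Real.sqrt_le_iff.2
  refine ⟨by positivity, ?_⟩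
  rw [← pow_mul, mul_comm j 2, pow_mul]
  exact pow_le_pow_left₀ (by norm_num) (by norm_num) j

theorem main (hv : S_HV) : S_ID := by
  intro M _ E _ _ c hmid θ hθ hp hder
  obtain ⟨K, ρ₀, hK, hρ, H⟩ := hv M E c hmid
  have hL := c.one_le_L
  have hL0 : 0 < c.L := by linarith
  have hτ := c.τpos
  refine ⟨min c.τ (min (ρ₀ / (2 * c.L)) (1 / (512 * K * c.L))), by positivity, fun y hy => ?_⟩
  have hy1 : dist (c.ψ c.x₀) y < c.τ := lt_of_lt_of_le hy (min_le_left _ _)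
  have hy2 : dist (c.ψ c.x₀) y < ρ₀ / (2 * c.L) :=
    lt_of_lt_of_le hy ((min_le_right _ _).trans (min_le_left _ _))
  have hy3 : dist (c.ψ c.x₀) y < 1 / (512 * K * c.L) :=
    lt_of_lt_of_le hy ((min_le_right _ _).trans (min_le_right _ _))
  rcases eq_or_ne (c.ψ c.x₀) y with h0 | h0
  · rw [← h0]
    exact hp
  have hD : 0 < dist (c.ψ c.x₀) y := dist_pos.2 h0
  rw [lt_div_iff₀ (by positivity)] at hy2
  rw [lt_div_iff₀ (by positivity)] at hy3
  choose m hm1 hm2 using hmid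
  -- the sequence
  obtain ⟨z, hz0, hzs⟩ : ∃ z : ℕ → M, z 0 = y ∧ ∀ j, z (j + 1) = m (c.ψ c.x₀) (z j) :=
    ⟨fun j => Nat.rec y (fun _ w => m (c.ψ c.x₀) w) j, rfl, fun _ => rfl⟩
  have hzd : ∀ j, dist (c.ψ c.x₀) (z j) = dist (c.ψ c.x₀) y * (1 / 2) ^ j := by
    intro j
    induction j with
    | zero => rw [hz0, pow_zero, mul_one]
    | succ j ih =>
      rw [hzs, hm1, ih, pow_succ]
      ring
  have hpw : ∀ j : ℕ, (1 / 2 : ℝ) ^ j ≤ 1 := fun j => pow_le_one₀ (by norm_num) (by norm_num)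
  have hpw0 : ∀ j : ℕ, (0 : ℝ) < (1 / 2 : ℝ) ^ j := fun j => by positivity
  have hzτ : ∀ j, dist (c.ψ c.x₀) (z j) < c.τ := by
    intro j
    rw [hzd]
    exact lt_of_le_of_lt (mul_le_of_le_one_right hD.le (hpw j)) hy1
  have hθd : ∀ w, dist (c.ψ c.x₀) (θ w) = dist (c.ψ c.x₀) w := by
    intro w
    conv_lhs => rw [← hp]
    exact hθ.dist_eq _ _
  have hzτ' : ∀ j, dist (c.ψ c.x₀) (θ (z j)) < c.τ := by
    intro j
    rw [hθd]
    exact hzτ j
  have hin : ∀ w, dist (c.ψ c.x₀) w < c.τ → ∀ r : ℝ, c.L * dist (c.ψ c.x₀) w < r →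
      c.φ w ∈ ball c.x₀ r := by
    intro w hw r hr
    rw [mem_ball, dist_eq_norm]
    exact lt_of_le_of_lt (near c hw).2 hr
  -- the recursion
  have hrec : ∀ j, (1 / 2 - √(K * (2 * c.L * dist (c.ψ c.x₀) y)) * (3 / 4) ^ j) *
      ‖c.φ (θ (z j)) - c.φ (z j)‖ ≤ ‖c.φ (θ (z (j + 1))) - c.φ (z (j + 1))‖ := by
    intro j
    have hr0 : 0 < 2 * c.L * dist (c.ψ c.x₀) y * (1 / 2) ^ j := by
      have := hpw0 j
      positivity
    have hr1 : 2 * c.L * dist (c.ψ c.x₀) y * (1 / 2) ^ j ≤ ρ₀ := by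
      have h1 : 2 * c.L * dist (c.ψ c.x₀) y * (1 / 2) ^ j ≤ 2 * c.L * dist (c.ψ c.x₀) y :=
        mul_le_of_le_one_right (by positivity) (hpw j)
      linarith
    have b1 : c.L * dist (c.ψ c.x₀) (z j) < 2 * c.L * dist (c.ψ c.x₀) y * (1 / 2) ^ j := by
      rw [hzd]
      have : c.L * (dist (c.ψ c.x₀) y * (1 / 2) ^ j) * 2 =
        2 * c.L * dist (c.ψ c.x₀) y * (1 / 2) ^ j := by ring
      linarith
    have b2 : c.L * dist (c.ψ c.x₀) (z (j + 1)) <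
        2 * c.L * dist (c.ψ c.x₀) y * (1 / 2) ^ j := by
      rw [hzd, pow_succ]
      have : c.L * (dist (c.ψ c.x₀) y * ((1 / 2) ^ j * (1 / 2))) * 4 =
        2 * c.L * dist (c.ψ c.x₀) y * (1 / 2) ^ j := by ring
      linarith
    have key := H _ hr0 hr1 (c.φ (z j)) (c.φ (θ (z j))) (c.φ (z (j + 1))) (c.φ (θ (z (j + 1))))
      (hin _ (hzτ j) _ b1) (hin _ (hzτ' j) _ (by rw [hθd]; exact b1))
      (hin _ (hzτ (j + 1)) _ b2) (hin _ (hzτ' (j + 1)) _ (by rw [hθd]; exact b2))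
      (by rw [(near c (hzτ (j + 1))).1, (near c (hzτ j)).1, hzs, hm1])
      (by rw [(near c (hzτ (j + 1))).1, (near c (hzτ j)).1, hzs, hm2])
      (by rw [(near c (hzτ' (j + 1))).1, (near c (hzτ' j)).1, hθd, hθd, hzs, hm1])
      (by rw [(near c (hzτ' (j + 1))).1, (near c (hzτ' j)).1, hθ.dist_eq, hθd, hzs, hm2])
    have k1 : ‖(c.φ (z (j + 1)) - c.φ (θ (z (j + 1)))) -
        (1 / 2 : ℝ) • (c.φ (z j) - c.φ (θ (z j)))‖ ≤
        √(K * (2 * c.L * dist (c.ψ c.x₀) y)) * (3 / 4) ^ j * ‖c.φ (z j) - c.φ (θ (z j))‖ := by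
      have h1 : ‖(c.φ (z (j + 1)) - c.φ (θ (z (j + 1)))) -
        (1 / 2 : ℝ) • (c.φ (z j) - c.φ (θ (z j)))‖ ≤
        √(K * (2 * c.L * dist (c.ψ c.x₀) y * (1 / 2) ^ j)) * ‖c.φ (z j) - c.φ (θ (z j))‖ := by
        apply abs_le_of_sq_le_sq' _ (by positivity) |>.2
        rw [mul_pow, Real.sq_sqrt (by positivity)]
        exact key
      refine h1.trans (mul_le_mul_of_nonneg_right ?_ (norm_nonneg _))
      have h2 := sqrt_geo (t := K * (2 * c.L * dist (c.ψ c.x₀) y)) (by positivity) j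
      rw [mul_assoc K] at h2
      exact h2
    have k2 : ‖(1 / 2 : ℝ) • (c.φ (z j) - c.φ (θ (z j)))‖ =
        1 / 2 * ‖c.φ (z j) - c.φ (θ (z j))‖ := by
      rw [norm_smul, Real.norm_of_nonneg (by norm_num)]
    have k3 := norm_sub_norm_le ((1 / 2 : ℝ) • (c.φ (z j) - c.φ (θ (z j))))
      (c.φ (z (j + 1)) - c.φ (θ (z (j + 1))))
    rw [norm_sub_rev ((1 / 2 : ℝ) • (c.φ (z j) - c.φ (θ (z j))))] at k3
    rw [norm_sub_rev (c.φ (θ (z j))), norm_sub_rev (c.φ (θ (z (j + 1))))]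
    rw [k2] at k3
    linarith
  have hs : √(K * (2 * c.L * dist (c.ψ c.x₀) y)) ≤ 1 / 16 := by
    apply Real.sqrt_le_iff.2
    refine ⟨by norm_num, ?_⟩
    linarith
  have hgrow := seq_bound (fun j => ‖c.φ (θ (z j)) - c.φ (z j)‖) _ (Real.sqrt_nonneg _) hs
    (fun j => norm_nonneg _) hrec
  have hfin : ∀ ε : ℝ, 0 < ε → ‖c.φ (θ y) - c.φ y‖ ≤ ε := by
    intro ε hε
    obtain ⟨δ, hδ, hδ2⟩ := hder (ε / (2 * c.L * dist (c.ψ c.x₀) y)) (by positivity)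
    obtain ⟨j, hj⟩ := exists_pow_lt_of_lt_one (show 0 < δ / dist (c.ψ c.x₀) y by positivity)
      (show (1 / 2 : ℝ) < 1 by norm_num)
    rw [lt_div_iff₀ hD] at hj
    have h1 := hδ2 (z j) (by rw [dist_comm, hzd]; linarith)
    have h2 := (near c (hzτ j)).2
    rw [hzd] at h2
    have h3 := hgrow j
    simp only [hz0] at h3
    have h4 : 1 / 2 * ‖c.φ (θ y) - c.φ y‖ ≤
        (1 - 8 * √(K * (2 * c.L * dist (c.ψ c.x₀) y)) +
        8 * √(K * (2 * c.L * dist (c.ψ c.x₀) y)) * (3 / 4) ^ j) * ‖c.φ (θ y) - c.φ y‖ := by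
      apply mul_le_mul_of_nonneg_right _ (norm_nonneg _)
      have : 0 ≤ 8 * √(K * (2 * c.L * dist (c.ψ c.x₀) y)) * (3 / 4) ^ j := by positivity
      linarith
    have h5 : (2 : ℝ) ^ j * ‖c.φ (θ (z j)) - c.φ (z j)‖ ≤ ε / 2 := by
      calc (2 : ℝ) ^ j * ‖c.φ (θ (z j)) - c.φ (z j)‖
          ≤ 2 ^ j * (ε / (2 * c.L * dist (c.ψ c.x₀) y) *
            (c.L * (dist (c.ψ c.x₀) y * (1 / 2) ^ j))) := by
            apply mul_le_mul_of_nonneg_left _ (by positivity)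
            exact h1.trans (mul_le_mul_of_nonneg_left h2 (by positivity))
        _ = ε / 2 * (2 ^ j * (1 / 2) ^ j) := by
            field_simp
        _ = ε / 2 := by
            rw [← mul_pow]
            norm_num
    linarith
  have hzero : ‖c.φ (θ y) - c.φ y‖ = 0 :=
    le_antisymm (le_of_forall_pos_le_add fun ε hε => by
      rw [zero_add]
      exact hfin ε hε) (norm_nonneg _)
  have heq : c.φ (θ y) = c.φ y := sub_eq_zero.1 (norm_eq_zero.1 hzero)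
  have e1 := (near c (y := θ y) (by rw [hθd]; exact hy1)).1
  rw [← e1, heq, (near c hy1).1]

end Pool.Agent.W131.NTID
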